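import Pool.Agent.Lib.MP_b5021c_nt.IfaceK1

/-!
# MP_b5021c_nt, chapter K, module KRO: Kronecker's theorem on Hankel determinants

Proof. `Λ(X^j) = a_j`. Let `f ≠ 0` have minimal degree `d` among the polynomials of degree `≤ N` with
`Λ(f X^j) = 0` for `j ≤ N`. If `f` does not annihilate `a`, let `m` be the first index with
`Λ(f X^m) ≠ 0` and let `g ≠ 0`, `deg g = e ≤ m`, `Λ(g X^j) = 0` for `j ≤ m`. Minimality gives `e ≥ d`, and
`Λ(f g X^(m-e))` is `0` (second factor `f X^(m-e)` of degree `≤ m`) and `lc(g) Λ(f X^m) ≠ 0`.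
-/

set_option autoImplicit false

namespace Pool.Agent.MP_b5021c_nt.H03

open Polynomial Filter Topology

noncomputable section

/-- The functional `X^j ↦ a_j`. -/
def Lam (a : ℕ → ℤ) : ℤ[X] →ₗ[ℤ] ℤ := Polynomial.lsum (fun i => (a i) • (LinearMap.id : ℤ →ₗ[ℤ] ℤ))

theorem Lam_monomial (a : ℕ → ℤ) (i : ℕ) (c : ℤ) : Lam a (C c * X ^ i) = c * a i := by
  rw [C_mul_X_pow_eq_monomial]
  unfold Lam
  rw [Polynomial.lsum_apply, Polynomial.sum_monomial_index]
  · simp [mul_comm]
  · simp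

theorem Lam_C_mul (a : ℕ → ℤ) (c : ℤ) (p : ℤ[X]) : Lam a (C c * p) = c * Lam a p := by
  rw [← smul_eq_C_mul, map_smul, smul_eq_mul]

theorem Lam_mul (a : ℕ → ℤ) (f g : ℤ[X]) :
    Lam a (f * g) = ∑ j ∈ g.support, g.coeff j * Lam a (f * X ^ j) := by
  conv_lhs => rw [g.as_sum_support_C_mul_X_pow]
  rw [Finset.mul_sum, map_sum]
  refine Finset.sum_congr rfl fun j _ => ?_
  rw [← Lam_C_mul]
  congr 1
  ring

theorem Lam_mul_X (a : ℕ → ℤ) (q : ℤ[X]) (n : ℕ) :
    Lam a (q * X ^ n) = q.sum (fun i c => c * a (n + i)) := by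
  rw [mul_comm, Lam_mul, Polynomial.sum_def]
  refine Finset.sum_congr rfl fun i _ => ?_
  have := Lam_monomial a (n + i) 1
  rw [C_1, one_mul, one_mul] at this
  rw [← pow_add, this]

theorem kernel (a : ℕ → ℤ) (n : ℕ) (h : (hank a n).det = 0) :
    ∃ f : ℤ[X], f ≠ 0 ∧ f.natDegree ≤ n ∧ ∀ j, j ≤ n → Lam a (f * X ^ j) = 0 := by
  obtain ⟨v, hv, hHv⟩ := Matrix.exists_mulVec_eq_zero_iff.2 h
  refine ⟨∑ i : Fin (n + 1), C (v i) * X ^ (i : ℕ), ?_, ?_, ?_⟩
  · intro h0
    apply hv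
    funext i
    have h1 := congrArg (fun p : ℤ[X] => p.coeff (i : ℕ)) h0
    simp only [finsetSum_coeff, coeff_C_mul, coeff_X_pow, coeff_zero] at h1
    rw [Finset.sum_eq_single i] at h1
    · simpa using h1
    · intro k _ hk
      have : (i : ℕ) ≠ (k : ℕ) := fun e => hk (Fin.ext e.symm)
      simp [this]
    · intro h2; exact absurd (Finset.mem_univ i) h2
  · refine natDegree_sum_le_of_forall_le _ _ fun i _ => ?_
    refine (natDegree_C_mul_X_pow_le _ _).trans ?_
    exact Nat.lt_succ_iff.1 i.2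
  · intro j hj
    have h1 := congrFun hHv ⟨j, Nat.lt_succ_iff.2 hj⟩
    rw [Finset.sum_mul, map_sum]
    have h2 : ∀ i : Fin (n + 1), Lam a (C (v i) * X ^ (i : ℕ) * X ^ j) = a (j + i) * v i := by
      intro i
      rw [mul_assoc, ← pow_add, Lam_monomial, mul_comm, add_comm]
    simp only [h2]
    simpa [Matrix.mulVec, dotProduct, hank] using h1

theorem kro : KroS := by
  classical
  rintro a ⟨N, hN⟩
  -- an element of minimal degree
  have hex : ∃ d : ℕ, ∃ f : ℤ[X], f ≠ 0 ∧ f.natDegree = d ∧ d ≤ N ∧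
      ∀ j, j ≤ N → Lam a (f * X ^ j) = 0 := by
    obtain ⟨f, h1, h2, h3⟩ := kernel a N (hN N le_rfl)
    exact ⟨f.natDegree, f, h1, rfl, h2, h3⟩
  obtain ⟨f, hf, hfd, hdN, hfj⟩ := Nat.find_spec hex
  set d := Nat.find hex with hd
  by_cases hall : ∀ j, Lam a (f * X ^ j) = 0
  · exact ⟨f, hf, fun n => by rw [← Lam_mul_X]; exact hall n⟩
  exfalso
  push Not at hall
  set m := Nat.find hall with hm
  have hm1 : Lam a (f * X ^ m) ≠ 0 := Nat.find_spec hall
  have hm2 : ∀ j, j < m → Lam a (f * X ^ j) = 0 := fun j hj => by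
    have := Nat.find_min hall hj
    push Not at this
    exact this
  have hNm : N < m := by
    by_contra h
    exact hm1 (hfj m (not_lt.1 h))
  obtain ⟨g, hg, hge, hgj⟩ := kernel a m (hN m hNm.le)
  have hde : d ≤ g.natDegree := by
    by_contra h
    have h1 : g.natDegree < d := not_le.1 h
    exact Nat.find_min hex h1 ⟨g, hg, rfl, by omega, fun j hj => hgj j (by omega)⟩
  set e := g.natDegree with he
  -- the two evaluations
  have hA : Lam a (g * (f * X ^ (m - e))) = 0 := by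
    rw [Lam_mul]
    refine Finset.sum_eq_zero fun j hj => ?_
    have h1 : j ≤ (f * X ^ (m - e)).natDegree := le_natDegree_of_mem_supp j hj
    have h2 : (f * X ^ (m - e)).natDegree ≤ f.natDegree + (m - e) :=
      natDegree_mul_le.trans (by rw [natDegree_X_pow])
    rw [hgj j (by omega), mul_zero]
  have hB : Lam a (f * (g * X ^ (m - e))) = g.leadingCoeff * Lam a (f * X ^ m) := by
    rw [Lam_mul]
    have hdeg : (g * X ^ (m - e)).natDegree = m := by
      rw [natDegree_mul_X_pow _ hg]; omega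
    have hlc : (g * X ^ (m - e)).coeff m = g.leadingCoeff := by
      have : m = e + (m - e) := by omega
      conv_lhs => rw [this, Nat.add_sub_cancel_left]
      rw [coeff_mul_X_pow]
      rfl
    have hmem : m ∈ (g * X ^ (m - e)).support := by
      rw [mem_support_iff, hlc]
      exact leadingCoeff_ne_zero.2 hg
    rw [Finset.sum_eq_single_of_mem m hmem, hlc]
    intro j hj hjm
    have h1 : j ≤ m := hdeg ▸ le_natDegree_of_mem_supp j hj
    rw [hm2 j (lt_of_le_of_ne h1 hjm), mul_zero]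
  have hAB : g * (f * X ^ (m - e)) = f * (g * X ^ (m - e)) := by ring
  rw [hAB, hB] at hA
  rcases mul_eq_zero.1 hA with h | h
  · exact hg (leadingCoeff_eq_zero.1 h)
  · exact hm1 h

end

end Pool.Agent.MP_b5021c_nt.H03
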